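import Pool.Agent.Helper98.DE.St
import Pool.Agent.Helper51.AJ.Basic

/-!
# Project DE (MP_d63854_co): module EXC, excluded minors are critical
-/

set_option autoImplicit false

namespace Pool.Agent.Helper71.DE

open Pool.Agent.Helper98.DE
open Pool.Agent.Helper51.AJ (IsMinor Planar Apex ExMinor Con Tch isMinor_of_hom)
open Pool.Agent.Helper12.NK (rst Kc cnt)
open Pool.Agent.Helper12.MA (dl Srv)

/-- the graph without an edge is not isomorphic to the graph -/
private theorem not_iso {V : Type} [Finite V] (G : SimpleGraph V) (x y : V) (h : G.Adj x y) :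
    ¬ Nonempty ((G.deleteEdges {s(x, y)}) ≃g G) := by
  rintro ⟨e⟩
  have h1 : (G.deleteEdges {s(x, y)}).edgeSet.ncard = G.edgeSet.ncard := by
    rw [← Nat.card_coe_set_eq, ← Nat.card_coe_set_eq]
    exact Nat.card_congr e.mapEdgeSet
  rw [SimpleGraph.edgeSet_deleteEdges] at h1
  have h2 : s(x, y) ∈ G.edgeSet := h
  have hfin : G.edgeSet.Finite := Set.toFinite _
  have h3 := Set.ncard_sdiff_singleton_lt_of_mem h2 hfin
  omega

theorem hEXC : StEXC := by
  intro V _ G hG
  refine ⟨hG.1, fun x y hxy => ?_⟩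
  refine hG.2 V (G.deleteEdges {s(x, y)}) ?_ (not_iso G x y hxy)
  refine isMinor_of_hom (fun v => v) (fun _ _ h => h) fun a b hab => ?_
  exact (SimpleGraph.deleteEdges_adj.1 hab).1

end Pool.Agent.Helper71.DE
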